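import Pool.Agent.Run7.h506.TA.Stm

/-! Piece STEP of project TA (statement by helper506, copy of `Pool/Agent/W700/TL/STEP.lean` with
the larger errors, by helper591). -/

set_option autoImplicit false

namespace Pool.Agent.Run7.h591.TA

open Set Filter Topology Pool.Agent.W774.TL Pool.Agent.Run7.h506.TA

theorem sys_mono {A : ℝ} {a p a' p' : ℝ → ℝ} {l r l' r' : ℝ} (h : Sys2 A a p a' p' l r)
    (hl : l ≤ l') (hr : r' ≤ r) : Sys2 A a p a' p' l' r' :=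
  fun τ hτ => h τ ⟨hl.trans hτ.1, hτ.2.trans hr⟩

theorem t_STEP : S_J1 → S_J2 → S_J3 → S_STEP := by
  intro h1 h2 h3
  obtain ⟨A1, hA1⟩ := h1
  obtain ⟨A2, hA2⟩ := h2
  obtain ⟨A3, hA3⟩ := h3
  refine ⟨max 1 (max A1 (max A2 A3)), ?_⟩
  intro A hA a p a' p' hS ha0 hp0
  have hA1' : A1 ≤ A := ((le_max_left _ _).trans (le_max_right _ _)).trans hA
  have hA2' : A2 ≤ A := ((le_max_left _ _).trans
    ((le_max_right _ _).trans (le_max_right _ _))).trans hA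
  have hA3' : A3 ≤ A := ((le_max_right _ _).trans
    ((le_max_right _ _).trans (le_max_right _ _))).trans hA
  have hApos : 0 < A := lt_of_lt_of_le one_pos ((le_max_left _ _).trans hA)
  obtain ⟨hR1, e1, e2⟩ := hA1 A hA1' a p a' p' (sys_mono hS le_rfl (by norm_num)) ha0 hp0
  rw [abs_le] at ha0 hp0 e1 e2
  have ha1 : |a (-1 / 500)| ≤ 51 / 50000 := by
    rw [abs_le]
    constructor <;> linarith [ha0.1, ha0.2, e1.1, e1.2]
  obtain ⟨Q1, hQ1⟩ : ∃ Q1 : ℝ, p (-1 / 500) = A * (3 / 2 - 1 / 500 + Q1) := by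
    refine ⟨p (-1 / 500) / A - (3 / 2 - 1 / 500), ?_⟩
    field_simp
    ring
  have hX : -(A * (51 / 50000)) ≤ A * Q1 ∧ A * Q1 ≤ A * (51 / 50000) := by
    have e : A * Q1 = p (-1 / 500) - A * (3 / 2 - 1 / 500) := by
      rw [hQ1]
      ring
    rw [e]
    constructor <;> linarith [hp0.1, hp0.2, e2.1, e2.2]
  have hQ1' : |Q1| ≤ 51 / 50000 := by
    rw [abs_le]
    constructor
    · refine le_of_mul_le_mul_left ?_ hApos
      linarith [hX.1]
    · exact le_of_mul_le_mul_left hX.2 hApos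
  obtain ⟨hR2, e3, e4⟩ := hA2 A hA2' a p a' p' (sys_mono hS (by norm_num) (by norm_num))
    (a (-1 / 500)) Q1 rfl hQ1 ha1 hQ1'
  rw [abs_le] at e3 e4 ha1 hQ1'
  have hY : -(A * (51 / 50000)) ≤ A * a (-1 / 500) ∧
      A * a (-1 / 500) ≤ A * (51 / 50000) := by
    constructor
    · have := mul_le_mul_of_nonneg_left ha1.1 hApos.le
      linarith
    · exact mul_le_mul_of_nonneg_left ha1.2 hApos.le
  have hexp : A * (3 / 2 + 3 / 500 + (3 / 2 * Q1 - a (-1 / 500))) =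
      A * (3 / 2 + 3 / 500) + 3 / 2 * (A * Q1) - A * a (-1 / 500) := by ring
  rw [hexp] at e4
  have hA4 : |a (1 / 500) - 1 / 500| ≤ 8 / 10000 := by
    rw [abs_le]
    constructor <;> linarith [ha1.1, ha1.2, hQ1'.1, hQ1'.2, e3.1, e3.2]
  have hP4 : |p (1 / 500) - A * (3 / 2 + 3 / 500)| ≤ 26 / 10000 * A := by
    rw [abs_le]
    constructor <;> linarith [hX.1, hX.2, hY.1, hY.2, e4.1, e4.2]
  obtain ⟨hR3, e5, e6⟩ := hA3 A hA3' a p a' p' (sys_mono hS (by norm_num) le_rfl) hA4 hP4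
  rw [abs_le] at e5 e6 hA4 hP4
  refine ⟨?_, ?_, ?_⟩
  · rintro τ ⟨hl, hr⟩
    rcases le_or_gt τ (-1 / 500) with h | h
    · exact Or.inl (hR1 τ ⟨hl, h⟩)
    · rcases le_or_gt τ (1 / 500) with h' | h'
      · exact Or.inl (hR2 τ ⟨h.le, h'⟩)
      · exact Or.inr (hR3 τ ⟨h'.le, hr⟩)
  · rw [abs_le]
    constructor <;> linarith [ha1.1, ha1.2, hQ1'.1, hQ1'.2, e3.1, e3.2, e5.1, e5.2]
  · rw [abs_le]
    constructor <;> linarith [hX.1, hX.2, hY.1, hY.2, e4.1, e4.2, e6.1, e6.2]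

end Pool.Agent.Run7.h591.TA
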